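import Pool.Agent.H.MP_8a180b_co.C

namespace Pool.Agent.Results.MP_8a180b_co.Determined

open Pool.Agent.H.MP_8a180b_co

theorem result (r : ℕ) (hr : 1 ≤ r) (V W : Type) [Fintype V] [Fintype W] [Nonempty V] [Nonempty W]
    (G : SimpleGraph V) (H : SimpleGraph W) (h : thetaBar G = thetaBar H) :
    thetaBar (Myc r G) = thetaBar (Myc r H) := by
  rw [theta_eq, theta_eq] at h ⊢
  exact le_antisymm (mono hr H G h.symm) (mono hr G H h)

end Pool.Agent.Results.MP_8a180b_co.Determined
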